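import Pool.Agent.Helper77.DT.LocalP

set_option autoImplicit false

namespace Pool.Agent.Results.MP_30ac48_nt.LocalConditions

open Pool.Agent.Helper51.Tors Pool.Agent.Helper77.DT

/-- `Y = -4^e m` and `X = 4^e n` with `n` divisible by `32`, where `m` is `5` modulo `8`, or `m` is
`1` modulo `8` and the exponent of `2` in `n` is `1` modulo `3`. -/
def AtTwo (X Y : ℤ) : Prop :=
  ∃ (e : ℕ) (m n : ℤ), Y = -(4 ^ e * m) ∧ X = 4 ^ e * n ∧ 32 ∣ n ∧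
    (m % 8 = 5 ∨ (m % 8 = 1 ∧ padicValInt 2 n % 3 = 1))

/-- Either `Y = -9^e m` and `X = 9^e 27^f n` with `f ≥ 1`, `m` equal to `1` modulo `3` and `n`
equal to `2m` or `-2m` modulo `9`, or `Y = 3 9^e m` and `X = 3 9^e n` with `m` equal to `1` modulo
`3` and `n` divisible by `3`. -/
def AtThree (X Y : ℤ) : Prop :=
  ∃ (e : ℕ) (m n : ℤ),
    (Y = -(9 ^ e * m) ∧ m % 3 = 1 ∧ ∃ f : ℕ, 1 ≤ f ∧ X = 9 ^ e * 27 ^ f * n ∧
      (9 ∣ n - 2 * m ∨ 9 ∣ n + 2 * m)) ∨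
    (Y = 3 * 9 ^ e * m ∧ m % 3 = 1 ∧ X = 3 * 9 ^ e * n ∧ 3 ∣ n)

/-- If `Y = p^(2e) m` and `X = p^(2e) n` with `p` dividing `n` but not `m`, then `3m` is a square
modulo `p`, or `-m` is a square modulo `p` and the exponent of `p` in `n` is divisible by `3`. -/
def AtPrime (p : ℕ) (X Y : ℤ) : Prop :=
  ∀ (e : ℕ) (m n : ℤ), Y = (p : ℤ) ^ (2 * e) * m → X = (p : ℤ) ^ (2 * e) * n →
    (p : ℤ) ∣ n → ¬ (p : ℤ) ∣ m →
      IsSquare (3 * (m : ZMod p)) ∨ (IsSquare (-(m : ZMod p)) ∧ 3 ∣ padicValInt p n)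

/-- Local conditions at all primes for the triples `0 < a < b < c` such that the curve
`y² = (x+bc)(x+ac)(x+ab)` has torsion `ℤ/2 × ℤ/6`. -/
theorem result (a b c : ℕ) (ha : 0 < a) (hab : a < b) (hbc : b < c)
    (htors : Nonempty
        (↥(AddCommGroup.torsion
            (WeierstrassCurve.mk (0 : ℚ)
              ((a : ℚ) * b + (a : ℚ) * c + (b : ℚ) * c) 0
              ((a : ℚ) * b * c * ((a : ℚ) + b + c))
              (((a : ℚ) * b * c) ^ 2)).toAffine.Point)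
          ≃+ (ZMod 2 × ZMod 6)))
    (A B C : ℤ) (hA : A = a * (c - b)) (hB : B = b * (a - c)) (hC : C = c * (b - a)) :
    (AtTwo C A ∨ AtTwo A B ∨ AtTwo B C) ∧
    (AtThree C A ∨ AtThree A B ∨ AtThree B C) ∧
    ∀ p : ℕ, p.Prime → 5 ≤ p → AtPrime p C A ∧ AtPrime p A B ∧ AtPrime p B C := by
  obtain ⟨u, v, w, d, h⟩ := data_of_torsion a b c htors
  have hA0 : (a : ℤ) * (c - b) ≠ 0 := mul_ne_zero (by omega) (by omega)
  have hB0 : (b : ℤ) * (a - c) ≠ 0 := mul_ne_zero (by omega) (by omega)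
  have hC0 : (c : ℤ) * (b - a) ≠ 0 := mul_ne_zero (by omega) (by omega)
  subst hA hB hC
  refine ⟨two h hA0 hB0 hC0, three h hA0 hB0 hC0, fun p hp hp5 => ?_⟩
  have : Fact p.Prime := ⟨hp⟩
  exact ⟨fun e m n h1 h2 h3 h4 => prime_strong h hp5 hC0 e m n h1 h2 h3 h4,
    fun e m n h1 h2 h3 h4 => prime_strong h.rotate hp5 hA0 e m n h1 h2 h3 h4,
    fun e m n h1 h2 h3 h4 => prime_strong h.rotate.rotate hp5 hB0 e m n h1 h2 h3 h4⟩

end Pool.Agent.Results.MP_30ac48_nt.LocalConditions
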