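import Pool.Agent.QD.F.Main

/-!
# Hasse-Weil for the fields of degree divisible by `2^m` implies Hasse-Weil for all number fields

`E : y² = x³ + A x + B` with `A, B ∈ ℤ` (every elliptic curve over `ℚ` has such an equation), `T` a
finite set of primes containing the primes below `101` and those dividing `4A³ + 27B²`, so that `E`
has good reduction outside `T`.  If `E` satisfies the Hasse-Weil conjecture (entire completed
L-function, of finite order in vertical strips, with its functional equation) over `ℚ` and over all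
number fields whose degree is divisible by `2^m`, then it satisfies the Hasse-Weil conjecture over
all number fields.  More generally: from the degrees divisible by `2^m n` to the degrees divisible
by `n`.
-/

namespace Pool.Agent.Results.MP_bf9450_nt.PowerOfTwoDegrees

open NumberField IsDedekindDomain

open scoped TensorProduct

/-! ### The places of good reduction -/

/-- `a_p = p + 1 - #E(𝔽_p)` for `E : y² = x³ + A x + B`; with the point at infinity `#E(𝔽_p)` is the
number of affine solutions plus one. -/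
noncomputable def tracePrime (A B : ℤ) (p : ℕ) : ℤ :=
  (p : ℤ) - Nat.card {P : ZMod p × ZMod p // P.2 ^ 2 = P.1 ^ 3 + (A : ZMod p) * P.1 + (B : ZMod p)}

/-- `α^f + β^f`, where `α + β = a` and `α β = p`, by the recursion for the power sums: if `a` is the
trace of `Frob_p` (with determinant `p`), this is the trace of `Frob_p^f`. -/
noncomputable def tracePower (a p : ℝ) : ℕ → ℝ
  | 0 => 2
  | 1 => a
  | (f + 2) => a * tracePower a p (f + 1) - p * tracePower a p f

section Places

variable {K : Type} [Field K] [NumberField K]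

/-- The finite place `v` of `K` does not lie above a prime of `T`. -/
def AwayFrom (T : Finset ℕ) (v : HeightOneSpectrum (𝓞 K)) : Prop :=
  ∀ p ∈ T, ((p : ℕ) : 𝓞 K) ∉ v.asIdeal

/-- The norm `N v` of a finite place. -/
noncomputable def norm (v : HeightOneSpectrum (𝓞 K)) : ℕ := Ideal.absNorm v.asIdeal

/-- The trace `a_v` of `Frob_v` on the Tate module of `E`, for a place `v` of good reduction above
`p` with `N v = p^f`: as `Frob_v = Frob_p^f`, it is `α^f + β^f` where `α + β = a_p`, `α β = p`. -/
noncomputable def trace (A B : ℤ) (v : HeightOneSpectrum (𝓞 K)) : ℝ :=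
  tracePower (tracePrime A B (norm v).minFac) (norm v).minFac
    ((norm v).factorization (norm v).minFac)

/-- The Euler factor `(1 - a_v N v^(-s) + N v^(1-2s))⁻¹` of `L(E/K, s)` at a good place `v`. -/
noncomputable def eulerFactor (A B : ℤ) (v : HeightOneSpectrum (𝓞 K)) (s : ℂ) : ℂ :=
  (1 - (trace A B v : ℂ) * (norm v : ℂ) ^ (-s) + (norm v : ℂ) ^ (1 - 2 * s))⁻¹

end Places

/-- The product of the Euler factors of `L(E/K, s)` at the finite places of `K` not above `T`. -/
noncomputable def goodPart (A B : ℤ) (K : Type) [Field K] [NumberField K] (T : Finset ℕ)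
    (s : ℂ) : ℂ :=
  ∏' v : {v : HeightOneSpectrum (𝓞 K) // AwayFrom T v}, eulerFactor A B v.1 s

/-! ### The places above `T` -/

/-- Local data above the primes of `T`.  For a number field `K` and a prime `p` let
`R = ℚ_p ⊗ K`, the product of the completions `K_v`, `v` above `p`.  The data are: the product
`rootNumber p R` of the local root numbers `w(E/K_v)`, the norm `conductor p R` of the `p`-part of
the conductor of `E/K`, and the product `polynomial p R` of the polynomials
`det(1 - Frob_v X^(f_v) | V_ℓ(E)^(I_v))`, whose value at `X = p^(-s)` is the inverse of the product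
of the Euler factors above `p`.  All that is used: they depend only on the isomorphism class of the
`ℚ_p`-algebra `R`, they are multiplicative on products, the signs are `± 1`, the norms are positive,
and the polynomials have constant coefficient `1` and no root of absolute value less than
`p^(-1/2)`. -/
structure LocalData where
  rootNumber : ∀ (p : ℕ) [Fact p.Prime] (R : Type) [CommRing R] [Algebra ℚ_[p] R], ℤ
  conductor : ∀ (p : ℕ) [Fact p.Prime] (R : Type) [CommRing R] [Algebra ℚ_[p] R], ℝ
  polynomial : ∀ (p : ℕ) [Fact p.Prime] (R : Type) [CommRing R] [Algebra ℚ_[p] R], Polynomial ℂ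
  rootNumber_iso : ∀ (p : ℕ) [Fact p.Prime] (R R' : Type) [CommRing R] [Algebra ℚ_[p] R]
    [CommRing R'] [Algebra ℚ_[p] R'] [Module.Finite ℚ_[p] R] [Module.Finite ℚ_[p] R'],
    Nonempty (R ≃ₐ[ℚ_[p]] R') → rootNumber p R = rootNumber p R'
  conductor_iso : ∀ (p : ℕ) [Fact p.Prime] (R R' : Type) [CommRing R] [Algebra ℚ_[p] R]
    [CommRing R'] [Algebra ℚ_[p] R'] [Module.Finite ℚ_[p] R] [Module.Finite ℚ_[p] R'],
    Nonempty (R ≃ₐ[ℚ_[p]] R') → conductor p R = conductor p R'
  polynomial_iso : ∀ (p : ℕ) [Fact p.Prime] (R R' : Type) [CommRing R] [Algebra ℚ_[p] R]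
    [CommRing R'] [Algebra ℚ_[p] R'] [Module.Finite ℚ_[p] R] [Module.Finite ℚ_[p] R'],
    Nonempty (R ≃ₐ[ℚ_[p]] R') → polynomial p R = polynomial p R'
  rootNumber_prod : ∀ (p : ℕ) [Fact p.Prime] (R R' : Type) [CommRing R] [Algebra ℚ_[p] R]
    [CommRing R'] [Algebra ℚ_[p] R'] [Module.Finite ℚ_[p] R] [Module.Finite ℚ_[p] R'],
    rootNumber p (R × R') = rootNumber p R * rootNumber p R'
  conductor_prod : ∀ (p : ℕ) [Fact p.Prime] (R R' : Type) [CommRing R] [Algebra ℚ_[p] R]
    [CommRing R'] [Algebra ℚ_[p] R'] [Module.Finite ℚ_[p] R] [Module.Finite ℚ_[p] R'],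
    conductor p (R × R') = conductor p R * conductor p R'
  polynomial_prod : ∀ (p : ℕ) [Fact p.Prime] (R R' : Type) [CommRing R] [Algebra ℚ_[p] R]
    [CommRing R'] [Algebra ℚ_[p] R'] [Module.Finite ℚ_[p] R] [Module.Finite ℚ_[p] R'],
    polynomial p (R × R') = polynomial p R * polynomial p R'
  rootNumber_sign : ∀ (p : ℕ) [Fact p.Prime] (R : Type) [CommRing R] [Algebra ℚ_[p] R]
    [Module.Finite ℚ_[p] R], rootNumber p R = 1 ∨ rootNumber p R = -1
  conductor_pos : ∀ (p : ℕ) [Fact p.Prime] (R : Type) [CommRing R] [Algebra ℚ_[p] R]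
    [Module.Finite ℚ_[p] R], 0 < conductor p R
  polynomial_zero : ∀ (p : ℕ) [Fact p.Prime] (R : Type) [CommRing R] [Algebra ℚ_[p] R]
    [Module.Finite ℚ_[p] R], (polynomial p R).eval 0 = 1
  polynomial_root : ∀ (p : ℕ) [Fact p.Prime] (R : Type) [CommRing R] [Algebra ℚ_[p] R]
    [Module.Finite ℚ_[p] R] (z : ℂ), (polynomial p R).eval z = 0 →
    (p : ℝ) ^ (-(1 / 2) : ℝ) ≤ ‖z‖

section HasseWeil

variable (A B : ℤ) (T : Finset ℕ) (D : LocalData) (K : Type) [Field K] [NumberField K]

open Classical in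
/-- The global root number `w(E/K)`: `-1` for every archimedean place, `1` for every finite place
of good reduction, and the local root numbers above `T`. -/
noncomputable def rootNumber : ℤ :=
  (-1) ^ (InfinitePlace.nrRealPlaces K + InfinitePlace.nrComplexPlaces K) *
    ∏ p ∈ T, if h : p.Prime then haveI := Fact.mk h; D.rootNumber p (ℚ_[p] ⊗[ℚ] K) else 1

open Classical in
/-- `A_{E/K} = disc(K)² N`, `N` the norm of the conductor of `E/K`. -/
noncomputable def conductorConstant : ℝ :=
  (NumberField.discr K : ℝ) ^ 2 *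
    ∏ p ∈ T, if h : p.Prime then haveI := Fact.mk h; D.conductor p (ℚ_[p] ⊗[ℚ] K) else 1

open Classical in
/-- The inverse of the product of the Euler factors of `L(E/K, s)` above `T`. -/
noncomputable def badPartInv (s : ℂ) : ℂ :=
  ∏ p ∈ T, if h : p.Prime then haveI := Fact.mk h;
    (D.polynomial p (ℚ_[p] ⊗[ℚ] K)).eval ((p : ℂ) ^ (-s)) else 1

/-- `L(E/K, s)` as an Euler product, `Re s > 3/2`. -/
noncomputable def LFunction (s : ℂ) : ℂ := goodPart A B K T s / badPartInv T D K s

/-- Finite order in vertical strips: `|F(s)| ≤ exp (C (1 + |Im s|)^c)` for `a ≤ Re s ≤ b`.  This is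
implied by boundedness in vertical strips, and also by finite order. -/
def FiniteOrderInStrips (F : ℂ → ℂ) : Prop :=
  ∀ a b : ℝ, ∃ c C : ℝ, ∀ s : ℂ, a ≤ s.re → s.re ≤ b →
    ‖F s‖ ≤ Real.exp (C * (1 + |s.im|) ^ c)

/-- The Hasse-Weil conjecture for `E` over `K`: the completed L-function
`Λ(E/K, s) = A_{E/K}^(s/2) ((2π)^(-s) Γ(s))^[K:ℚ] L(E/K, s)` extends to an entire function, of finite
order in vertical strips, and `Λ(E/K, s) = w(E/K) Λ(E/K, 2 - s)`.  (Then `L(E/K, s)` is entire
too, as `1/Γ` is entire.) -/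
def HasseWeil : Prop :=
  ∃ Lam : ℂ → ℂ, Differentiable ℂ Lam ∧ FiniteOrderInStrips Lam ∧
    (∀ s : ℂ, Lam s = (rootNumber T D K : ℂ) * Lam (2 - s)) ∧
    ∀ s : ℂ, 3 / 2 < s.re →
      Lam s = ((conductorConstant T D K : ℝ) : ℂ) ^ (s / 2) *
        ((2 * Real.pi : ℂ) ^ (-s) * Complex.Gamma s) ^ Module.finrank ℚ K *
          LFunction A B T D K s

end HasseWeil

/-! ### Comparison with the definitions of the proof -/

private theorem tracePower_eq (a p : ℝ) (f : ℕ) :
    tracePower a p f = Pool.Agent.QD.luc a p f := by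
  induction f using Nat.twoStepInduction with
  | zero => rfl
  | one => rfl
  | more f h1 h2 => rw [tracePower, Pool.Agent.QD.luc, h1, h2]

/-- the norm of a place is a power of a prime contained in it -/
private theorem norm_eq {K : Type} [Field K] [NumberField K] (v : HeightOneSpectrum (𝓞 K)) :
    ∃ p f : ℕ, p.Prime ∧ 1 ≤ f ∧ norm v = p ^ f ∧ ((p : ℕ) : 𝓞 K) ∈ v.asIdeal := by
  have : v.asIdeal.IsMaximal := v.isMaximal
  let _ : Field (𝓞 K ⧸ v.asIdeal) := Ideal.Quotient.field v.asIdeal
  have : Finite (𝓞 K ⧸ v.asIdeal) := Ideal.finiteQuotientOfFreeOfNeBot v.asIdeal v.ne_bot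
  let _ : Fintype (𝓞 K ⧸ v.asIdeal) := Fintype.ofFinite _
  have hpp : IsPrimePow (norm v) := by
    have h1 := Fintype.isPrimePow_card_of_field (α := 𝓞 K ⧸ v.asIdeal)
    have h2 : norm v = Fintype.card (𝓞 K ⧸ v.asIdeal) := by
      unfold norm
      rw [Ideal.absNorm_apply, Submodule.cardQuot_apply, Nat.card_eq_fintype_card]
    rw [h2]
    exact h1
  rw [isPrimePow_nat_iff] at hpp
  obtain ⟨p, f, hp, hf, hpf⟩ := hpp
  refine ⟨p, f, hp, hf, hpf.symm, ?_⟩
  have h1 : ((norm v : ℕ) : 𝓞 K) ∈ v.asIdeal := Ideal.absNorm_mem v.asIdeal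
  rw [← hpf, Nat.cast_pow] at h1
  exact v.isPrime.mem_of_pow_mem _ h1

private theorem trace_eq (A B : ℤ) {K : Type} [Field K] [NumberField K] (T : Finset ℕ)
    (v : HeightOneSpectrum (𝓞 K)) (hv : AwayFrom T v) :
    trace A B v = Pool.Agent.QD.aT A B T (Pool.Agent.HWR.nrm v) := by
  obtain ⟨p, f, hp, hf, hpf, hmem⟩ := norm_eq v
  have hpT : p ∉ T := fun h => hv p h hmem
  have h1 : (norm v).minFac = p := by rw [hpf]; exact hp.pow_minFac (by omega)
  have h2 : Pool.Agent.HWR.nrm v = norm v := rfl
  unfold trace Pool.Agent.QD.aT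
  rw [h2, h1, if_pos ⟨hp, hpT, f, hf, hpf⟩, tracePower_eq]
  rfl

private theorem goodPart_eq (A B : ℤ) (K : Type) [Field K] [NumberField K] (T : Finset ℕ)
    (s : ℂ) : goodPart A B K T s = Pool.Agent.HWR.LT K (Pool.Agent.QD.aT A B T) T s := by
  unfold goodPart Pool.Agent.HWR.LT
  refine tprod_congr fun v => ?_
  unfold eulerFactor Pool.Agent.HWR.efac
  rw [trace_eq A B T v.1 v.2]
  rfl

private def toLoc (T : Finset ℕ) (D : LocalData) : Pool.Agent.QD.LocData T where
  sgn := D.rootNumber
  cond := D.conductor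
  pol := D.polynomial
  sgn_iso := D.rootNumber_iso
  cond_iso := D.conductor_iso
  pol_iso := D.polynomial_iso
  sgn_prod := D.rootNumber_prod
  cond_prod := D.conductor_prod
  pol_prod := D.polynomial_prod
  sgn_sq := D.rootNumber_sign
  cond_pos := D.conductor_pos
  pol_zero := D.polynomial_zero
  pol_root := D.polynomial_root

private theorem hw_iff (A B : ℤ) (T : Finset ℕ) (D : LocalData) (K : Type) [Field K]
    [NumberField K] :
    HasseWeil A B T D K ↔ (toLoc T D).HW (Pool.Agent.QD.aT A B T) K := by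
  have h1 : (rootNumber T D K : ℂ) = (toLoc T D).w K := by
    unfold rootNumber Pool.Agent.QD.LocData.w Pool.Agent.QD.LocData.sg
    push_cast
    rfl
  unfold HasseWeil Pool.Agent.QD.LocData.HW
  rw [h1]
  have h2 : ∀ s : ℂ, ((conductorConstant T D K : ℝ) : ℂ) ^ (s / 2) *
        ((2 * Real.pi : ℂ) ^ (-s) * Complex.Gamma s) ^ Module.finrank ℚ K *
          LFunction A B T D K s = (toLoc T D).Lam (Pool.Agent.QD.aT A B T) K s := by
    intro s
    unfold LFunction
    rw [goodPart_eq]
    rfl
  simp only [h2]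
  rfl

/-- Let `E : y² = x³ + A x + B` be an elliptic curve over `ℚ` which satisfies the Hasse-Weil
conjecture over `ℚ`.  If it satisfies the Hasse-Weil conjecture over all number fields of degree
divisible by `2^m n`, then it satisfies the Hasse-Weil conjecture over all number fields of degree
divisible by `n`; for `n = 1`: over all number fields. -/
theorem result (A B : ℤ) (T : Finset ℕ) (hTp : ∀ p ∈ T, p.Prime)
    (hT : ∀ p : ℕ, p.Prime → p < 101 → p ∈ T)
    (hbad : ∀ p : ℕ, p.Prime → (p : ℤ) ∣ 4 * A ^ 3 + 27 * B ^ 2 → p ∈ T) (D : LocalData)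
    (hQ : HasseWeil A B T D ℚ) (m n : ℕ) (hn : n ≠ 0)
    (H : ∀ (F : Type) [Field F] [NumberField F], 2 ^ m * n ∣ Module.finrank ℚ F →
      HasseWeil A B T D F)
    (K : Type) [Field K] [NumberField K] (hK : n ∣ Module.finrank ℚ K) :
    HasseWeil A B T D K := by
  rw [hw_iff] at hQ ⊢
  exact Pool.Agent.QD.main_theorem A B T hTp hT hbad (toLoc T D) hQ m n hn
    (fun F _ _ hF => (hw_iff A B T D F).1 (H F hF)) K hK

end Pool.Agent.Results.MP_bf9450_nt.PowerOfTwoDegrees
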